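import Pool.Agent.H54.RK.All

/-!
# Algebraic pseudo-Anosov elements of the Artin groups of spherical type of rank at most four

In every Artin group of spherical type with at most four generators, if no positive power of `g`
normalizes a parabolic subgroup other than the trivial one and the whole group, then the subgroup
generated by `g` and the center has finite index in the centralizer of `g`.
-/

set_option autoImplicit false

namespace Pool.Agent.Results.MP_35eb49_al.PseudoAnosovRankAtMostFour

theorem result : ∀ (n : ℕ), n ≤ 4 → ∀ (M : CoxeterMatrix (Fin n)), Finite M.Group →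
  ∀ (R : Set (FreeGroup (Fin n))),
    R = Set.range (fun p : Fin n × Fin n =>
      ((CoxeterSystem.alternatingWord p.1 p.2 (M p.1 p.2)).map FreeGroup.of).prod *
      (((CoxeterSystem.alternatingWord p.2 p.1 (M p.1 p.2)).map FreeGroup.of).prod)⁻¹) →
  ∀ g : PresentedGroup R,
    (∀ (P : Subgroup (PresentedGroup R)),
      (∃ (X : Set (Fin n)) (a : PresentedGroup R),
        P = (Subgroup.closure (PresentedGroup.of '' X)).map (MulAut.conj a).toMonoidHom) →
      P ≠ ⊤ → P ≠ ⊥ →
      ∀ k : ℕ, 0 < k → P.map (MulAut.conj (g ^ k)).toMonoidHom ≠ P) →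
    (Subgroup.zpowers g ⊔ Subgroup.center (PresentedGroup R)).relIndex
      (Subgroup.centralizer {g}) ≠ 0 := by
  intro n hn M hM R hR g hg
  subst hR
  exact Pool.Agent.H54.RK.rank4 n hn M hM g hg

end Pool.Agent.Results.MP_35eb49_al.PseudoAnosovRankAtMostFour
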